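import Mathlib
import Pool.Agent.H496.B1.Fin

/-!
# Groups which are compact at a real place: the Ramanujan conjecture on average in the weight aspect

`k` is a number field, given by its places `e v : k → L v` with the product formula, `G` is the group of rational
points of a group over `k` in `GL_N`, which is compact at some real place `e₀` (the matrices are orthogonal there).
The adelic group is `H × C`, where `C` is the compact group of the points of `G` at (all, or some) places where `G` is
compact, and `H` is the group at the other places. No other condition is imposed on `G`: examples are the inner forms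
of `Sp_{2n}`, `SO_n`, the unitary groups, `G_2, F_4, E_8, …` which are compact at one or more real places of a totally
real field. The group may be isotropic or not, split or not, compact or not at the other places.

`f_1, …, f_r` are orthonormal automorphic forms. Under `C` they generate representations with the normalised
character `χ_j`, which is close to `1` on the conjugation invariant set `B₀ ⊆ C`: if the weights are at most `κ_v` then
`B₀` may be the set of all `z` with `|z_v - 1| ≤ c / κ_v`, whose volume is a constant times `∏ κ_v ^ (- dim G_v)`.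
Let `κ` be a function on `H` with support in `B₁` and `f_j * κ = Λ_j f_j` (a product of Hecke operators at finite
places and of convolution operators at the other archimedean places, ramified or not).

**Theorem.** Let `c_v` bound `|N - tr (b' b⁻¹)|_v` for `b, b' ∈ B₁ × B₀` and let `∏ c_v < 1`. Then for all `x`
`∑_j |Λ_j|² |f_j(x)|² ≤ 4 ‖κ‖² / vol(B₀)`, and `∑_j |Λ_j|² ≤ 4 ‖κ‖² vol(F) / vol(B₀)`.

At the compact places `N - tr z = |z - 1|² / 2 ≤ c² / κ_v²`, so that `κ` may have the size `∏ κ_v²`. For the operators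
of the type `(1, …, 1)` at a finite place of an inner form of `Sp_{2n}` over `ℚ`, which is compact at the real place,
the range is `p ^ m ≤ c κ`, the degree `κ ^ (n (n + 1))` is equal to the number of the representations of weight
`≤ κ`, so that the bound for the forms which are exceptional in this direction is that of the density hypothesis of
Sarnak and Xue (`O(1)` for the trivial representation).

Proof: duality; if `γ = x b' b⁻¹ x⁻¹` then `tr γ = N` by the product formula, and so `γ = 1`, as `γ` is orthogonal.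
-/

set_option autoImplicit false

namespace Pool.Agent.Results.MP_08cfa9_nt.WeightAspect

open MeasureTheory Function Pool.Agent.H496
open scoped ComplexConjugate

section defs
variable {k V : Type} [Field k] {L : V → Type} [∀ v, NormedField (L v)]
variable {G H C : Type} [Group G] [Group H] [MeasurableSpace H] [Group C] [MeasurableSpace C]

/-- The group `G` of matrices over `k`, its embedding `ρ` into the adelic group and the local components `τ v`. -/
def IsAdelic (e : ∀ v, k →+* L v) {N : ℕ} (r : G →* Matrix (Fin N) (Fin N) k) (ρ : G →* H × C)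
    (τ : ∀ v, H × C →* Matrix (Fin N) (Fin N) (L v)) : Prop :=
  Injective r ∧ ∀ v γ, τ v (ρ γ) = (r γ).map (e v)

/-- `G` is compact at the real place `e₀`: its elements are orthogonal matrices there. -/
def IsCompactAt {N : ℕ} (e₀ : k →+* ℝ) (r : G →* Matrix (Fin N) (Fin N) k) : Prop :=
  ∀ γ, ((r γ).map e₀).transpose * (r γ).map e₀ = 1

/-- The `f j` are orthonormal functions on `G \ (H × C)`; `F` is a measurable set which meets almost all orbits. -/
def IsOrthonormal (μ : Measure (H × C)) (ρ : G →* H × C) (F : Set (H × C)) {J : Type} [DecidableEq J]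
    (f : J → H × C → ℂ) : Prop :=
  MeasurableSet F ∧ (∀ᵐ h ∂μ, ∃ γ : G, ρ γ * h ∈ F) ∧ (∀ j, Measurable (f j)) ∧ (∀ j γ h, f j (ρ γ * h) = f j h) ∧
    ∀ i j, ∫ h in F, f i h * conj (f j h) ∂μ = if i = j then 1 else 0

/-- The translates of `f` under the compact group `C` generate a representation with the normalised character `χ`
(a multiple of an irreducible representation). -/
def HasCharacter (μC : Measure C) (f : H × C → ℂ) (χ : C → ℂ) : Prop :=
  (∀ h, Integrable (fun c => f (h, c)) μC) ∧ Measurable χ ∧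
    ∀ h c z, ∫ y, f (h, c * (y * z * y⁻¹)) ∂μC = χ z * f (h, c)

/-- A conjugation invariant set of positive measure. -/
def IsBall (μC : Measure C) (B₀ : Set C) : Prop :=
  MeasurableSet B₀ ∧ μC B₀ ≠ 0 ∧ ∀ y, ∀ z ∈ B₀, y * z * y⁻¹ ∈ B₀

/-- Square integrable functions with support in `B₁`. -/
def IsKer (μ : Measure H) (B₁ : Set H) (κ : H → ℂ) : Prop :=
  MeasurableSet B₁ ∧ Measurable κ ∧ (∀ h ∉ B₁, κ h = 0) ∧ Integrable (fun y => ‖κ y‖ ^ 2) μ

end defs

theorem result {k V : Type} [Field k] {L : V → Type} [∀ v, NormedField (L v)] (e : ∀ v, k →+* L v)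
    (he : ProductFormula e) (e₀ : k →+* ℝ) {G H C : Type} [Group G] [Countable G] [Group H] [MeasurableSpace H]
    [MeasurableMul H] [Group C] [MeasurableSpace C] [MeasurableMul₂ C] [MeasurableInv C]
    (μ : Measure H) [SFinite μ] [μ.IsMulLeftInvariant] (μC : Measure C) [IsProbabilityMeasure μC]
    [μC.IsMulLeftInvariant] [μC.IsMulRightInvariant]
    {N : ℕ} (r : G →* Matrix (Fin N) (Fin N) k) (ρ : G →* H × C)
    (τ : ∀ v, H × C →* Matrix (Fin N) (Fin N) (L v)) (hG : IsAdelic e r ρ τ) (h₀ : IsCompactAt e₀ r)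
    (F : Set (H × C)) {J : Type} [Fintype J] [DecidableEq J] (f : J → H × C → ℂ)
    (hf : IsOrthonormal (μ.prod μC) ρ F f) (B₁ : Set H) (B₀ : Set C) (hB₀ : IsBall μC B₀)
    (hB : TraceSmall τ (B₁ ×ˢ B₀)) (χ : J → C → ℂ) (hχ : ∀ j, HasCharacter μC (f j) (χ j))
    (hχ1 : ∀ j, ∀ z ∈ B₀, ‖χ j z - 1‖ ≤ 1 / 2) (κ : H → ℂ) (hκ : IsKer μ B₁ κ) (Λ : J → ℂ)
    (hΛ : ∀ j h c, ∫ y, f j (h * y, c) * κ y ∂μ = Λ j * f j (h, c)) :
    (∀ x, ∑ j, ‖Λ j‖ ^ 2 * ‖f j x‖ ^ 2 ≤ 4 * (∫ y, ‖κ y‖ ^ 2 ∂μ) / μC.real B₀) ∧
    ((μ.prod μC) F ≠ ⊤ →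
      ∑ j, ‖Λ j‖ ^ 2 ≤ 4 * (∫ y, ‖κ y‖ ^ 2 ∂μ) / μC.real B₀ * (μ.prod μC).real F) := by
  have key := weight_bessel he hG.1 hG.2 h₀ hf.1 hf.2.1 hf.2.2.1 hf.2.2.2.1 hf.2.2.2.2 hκ.1 hB₀.1 hB₀.2.1
    hB₀.2.2 hB (fun j => (hχ j).2.1) (fun j => (hχ j).2.2) (fun j => (hχ j).1) hχ1 hκ.2.1 hκ.2.2.1 hκ.2.2.2 hΛ
  exact ⟨key, fun hfin => integrated' _ hf.1 hfin f hf.2.2.2.2 _ key⟩

end Pool.Agent.Results.MP_08cfa9_nt.WeightAspect
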